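import Mathlib

open Finset Filter Topology Pointwise

namespace Pool.Agent.Results.MP_b92640_nt.Stohr

def blk (q s : ℕ) : Finset ℕ :=
  ((range q) ×ˢ (range s)).image (fun z => q * q + (z.1 + q * ((z.1 * z.1 + z.2) % q)))

lemma blk_card_le (q s : ℕ) : (blk q s).card ≤ q * s := by
  unfold blk
  refine card_image_le.trans ?_
  simp

lemma mem_blk_iff {q s y : ℕ} : y ∈ blk q s ↔ ∃ a < q, ∃ u < s, q * q + (a + q * ((a * a + u) % q)) = y := by
  unfold blk
  simp only [mem_image, mem_product, mem_range, Prod.exists]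
  constructor
  · rintro ⟨a, u, ⟨ha, hu⟩, h⟩
    exact ⟨a, ha, u, hu, h⟩
  · rintro ⟨a, ha, u, hu, h⟩
    exact ⟨a, u, ⟨ha, hu⟩, h⟩

lemma blk_data {q a t : ℕ} (ha : a < q) :
    (q * q + (a + q * t)) / q = q + t ∧ (q * q + (a + q * t)) % q = a := by
  have hq : 0 < q := by omega
  constructor
  · have : q * q + (a + q * t) = a + q * (q + t) := by ring
    rw [this, Nat.add_mul_div_left _ _ hq, Nat.div_eq_of_lt ha]; ring
  · have : q * q + (a + q * t) = a + q * (q + t) := by ring
    rw [this, Nat.add_mul_mod_self_left, Nat.mod_eq_of_lt ha]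

lemma blk_card {q s : ℕ} (hs : s ≤ q) : (blk q s).card = q * s := by
  unfold blk
  rw [card_image_of_injOn]
  · simp
  · rintro ⟨a, u⟩ h1 ⟨a', u'⟩ h2 h
    simp only [coe_product, coe_range, Set.mem_prod, Set.mem_Iio] at h1 h2
    simp only at h
    have e1 := blk_data (q := q) (t := (a * a + u) % q) h1.1
    have e2 := blk_data (q := q) (t := (a' * a' + u') % q) h2.1
    rw [h] at e1
    have haa : a = a' := by rw [← e1.2, e2.2]
    subst haa
    have ht : (a * a + u) % q = (a * a + u') % q := by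
      have := e1.1.symm.trans e2.1
      omega
    have hu : u % q = u' % q := by
      have : a * a + u ≡ a * a + u' [MOD q] := ht
      exact Nat.ModEq.add_left_cancel' _ this
    rw [Nat.mod_eq_of_lt (by omega), Nat.mod_eq_of_lt (by omega)] at hu
    rw [hu]

/-- data for elements of the block -/
lemma blk_zmod {q s y : ℕ} (h : y ∈ blk q s) :
    ∃ u < s, ((y / q : ℕ) : ZMod q) = (y : ZMod q) ^ 2 + (u : ZMod q) ∧ q ≤ y / q ∧ y / q < 2 * q := by
  obtain ⟨a, ha, u, hu, rfl⟩ := mem_blk_iff.1 h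
  have e1 := blk_data (q := q) (t := (a * a + u) % q) ha
  refine ⟨u, hu, ?_, ?_, ?_⟩
  · rw [e1.1]
    push_cast
    simp
    ring
  · rw [e1.1]; omega
  · rw [e1.1]
    have := Nat.mod_lt (a * a + u) (show 0 < q by omega)
    omega

lemma blk_lt {q s y : ℕ} (h : y ∈ blk q s) : q * q ≤ y ∧ y < 2 * (q * q) := by
  obtain ⟨u, hu, h1, h2, h3⟩ := blk_zmod h
  have hq : 0 < q := by
    rcases Nat.eq_zero_or_pos q with h0 | h0
    · subst h0; simp at h3
    · exact h0
  constructor
  · have := (Nat.le_div_iff_mul_le hq).1 h2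
    exact this
  · have := (Nat.div_lt_iff_lt_mul hq).1 h3
    nlinarith

lemma overlap {q s h : ℕ} (hq : q.Prime) (hq2 : 2 < q) (hh : 0 < h) (hhq : h < q) :
    ((blk q s).filter (fun y => y + h ∈ blk q s)).card ≤ 2 * (s * s) := by
  classical
  have := Fact.mk hq
  have hx : ∀ y ∈ (blk q s).filter (fun y => y + h ∈ blk q s), ∃ z : ℕ × ℕ × ℕ,
      z ∈ (range 2) ×ˢ (range s) ×ˢ (range s) ∧
      ((y / q : ℕ) : ZMod q) = (y : ZMod q) ^ 2 + (z.2.1 : ZMod q) ∧
      (((y + h) / q : ℕ) : ZMod q) = ((y + h : ℕ) : ZMod q) ^ 2 + (z.2.2 : ZMod q) ∧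
      (y + h) / q = y / q + z.1 := by
    intro y hy
    rw [mem_filter] at hy
    obtain ⟨u, hu, h1, h2, h3⟩ := blk_zmod hy.1
    obtain ⟨u', hu', h1', h2', h3'⟩ := blk_zmod hy.2
    have hc : (y + h) / q = y / q ∨ (y + h) / q = y / q + 1 := by
      have hq0 : 0 < q := by omega
      have h4 : y / q ≤ (y + h) / q := Nat.div_le_div_right (by omega)
      have h5 : (y + h) / q ≤ y / q + 1 := by
        calc (y + h) / q ≤ (y + q) / q := Nat.div_le_div_right (by omega)
          _ = y / q + 1 := by rw [Nat.add_div_right _ hq0]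
      omega
    rcases hc with hc | hc
    · refine ⟨(0, u, u'), ?_, h1, h1', ?_⟩
      · simp [hu, hu']
      · simpa using hc
    · refine ⟨(1, u, u'), ?_, h1, h1', ?_⟩
      · simp [hu, hu']
      · simpa using hc
  choose! f hf using hx
  have hcard : ((range 2) ×ˢ (range s) ×ˢ (range s)).card = 2 * (s * s) := by simp
  rw [← hcard]
  refine card_le_card_of_injOn f (fun y hy => (hf y hy).1) ?_
  intro y hy y' hy' hyy
  have e := hf y hy
  have e' := hf y' hy'
  rw [← hyy] at e'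
  obtain ⟨-, a1, a2, a3⟩ := e
  obtain ⟨-, b1, b2, b3⟩ := e'
  have hy0 := (mem_filter.1 hy).1
  have hy0' := (mem_filter.1 hy').1
  -- the residue is determined
  have k1 : (2 * (h : ZMod q)) * ((y : ZMod q) - (y' : ZMod q)) = 0 := by
    have p1 := congrArg (fun t : ℕ => (t : ZMod q)) a3
    have p2 := congrArg (fun t : ℕ => (t : ZMod q)) b3
    simp only [Nat.cast_add] at p1 p2 
    rw [a2, a1] at p1
    rw [b2, b1] at p2
    push_cast at p1 p2
    linear_combination p1 - p2
  have h2h : (2 * (h : ZMod q)) ≠ 0 := by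
    have : ((2 * h : ℕ) : ZMod q) ≠ 0 := by
      rw [Ne, ZMod.natCast_eq_zero_iff]
      intro hd
      rcases (hq.dvd_mul).1 hd with hd | hd
      · have := Nat.le_of_dvd (by norm_num) hd
        omega
      · have := Nat.le_of_dvd hh hd
        omega
    simpa using this
  have k2 : (y : ZMod q) = (y' : ZMod q) := by
    have := (mul_eq_zero.1 k1).resolve_left h2h
    exact sub_eq_zero.1 this
  have k3 : ((y / q : ℕ) : ZMod q) = ((y' / q : ℕ) : ZMod q) := by
    rw [a1, b1, k2]
  have k4 : y % q = y' % q := (ZMod.natCast_eq_natCast_iff' _ _ _).1 k2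
  have k5 : (y / q) % q = (y' / q) % q := (ZMod.natCast_eq_natCast_iff' _ _ _).1 k3
  obtain ⟨-, -, -, c2, c3⟩ := blk_zmod hy0
  obtain ⟨-, -, -, d2, d3⟩ := blk_zmod hy0'
  have k6 : y / q = y' / q := by
    obtain ⟨m, hm⟩ := Nat.exists_eq_add_of_le c2
    obtain ⟨m', hm'⟩ := Nat.exists_eq_add_of_le d2
    rw [hm, hm', Nat.add_mod_left, Nat.add_mod_left, Nat.mod_eq_of_lt (by omega), Nat.mod_eq_of_lt (by omega)] at k5
    omega
  rw [← Nat.div_add_mod y q, ← Nat.div_add_mod y' q, k4, k6]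

lemma bonf {q s : ℕ} (hq : q.Prime) (hq2 : 2 < q) (hs : s ≤ q) (T : Finset ℕ) (hT : T ⊆ range q) :
    T.card * (q * s) ≤ (T.biUnion (fun b => (blk q s).image (fun y => y + b))).card
      + T.card * (T.card - 1) * (s * s) := by
  classical
  induction T using Finset.induction_on with
  | empty => simp
  | insert b T hb ih =>
    have ih' := ih (fun x hx => hT (mem_insert_of_mem hx))
    rw [card_insert_of_notMem hb, biUnion_insert]
    set U := T.biUnion (fun b => (blk q s).image (fun y => y + b)) with hU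
    set V := (blk q s).image (fun y => y + b) with hV
    have hVc : V.card = q * s := by
      rw [hV, card_image_of_injective _ (add_left_injective b), blk_card hs]
    have hint : (V ∩ U).card ≤ T.card * (2 * (s * s)) := by
      have hsub : V ∩ U ⊆ T.biUnion (fun b' => V ∩ (blk q s).image (fun y => y + b')) := by
        intro x hx
        rw [mem_inter, hU, mem_biUnion] at hx
        obtain ⟨hx1, b', hb', hx2⟩ := hx
        rw [mem_biUnion]
        exact ⟨b', hb', mem_inter.2 ⟨hx1, hx2⟩⟩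
      refine (card_le_card hsub).trans (card_biUnion_le_card_mul _ _ _ ?_)
      intro b' hb'
      have hbq : b < q := mem_range.1 (hT (mem_insert_self _ _))
      have hbq' : b' < q := mem_range.1 (hT (mem_insert_of_mem hb'))
      have hne : b ≠ b' := fun h => hb (h ▸ hb')
      rcases lt_or_gt_of_ne hne with hlt | hlt
      · -- b < b'
        have : V ∩ (blk q s).image (fun y => y + b') ⊆
            ((blk q s).filter (fun y => y + (b' - b) ∈ blk q s)).image (fun y => y + b') := by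
          intro x hx
          simp only [hV, mem_inter, mem_image] at hx
          obtain ⟨⟨y, hy, hyx⟩, ⟨z, hz, hzx⟩⟩ := hx
          rw [mem_image]
          refine ⟨z, mem_filter.2 ⟨hz, ?_⟩, hzx⟩
          have : z + (b' - b) = y := by omega
          rw [this]; exact hy
        refine (card_le_card this).trans (card_image_le.trans (overlap hq hq2 (by omega) (by omega)))
      · have : V ∩ (blk q s).image (fun y => y + b') ⊆
            ((blk q s).filter (fun y => y + (b - b') ∈ blk q s)).image (fun y => y + b) := by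
          intro x hx
          simp only [hV, mem_inter, mem_image] at hx
          obtain ⟨⟨y, hy, hyx⟩, ⟨z, hz, hzx⟩⟩ := hx
          rw [mem_image]
          refine ⟨y, mem_filter.2 ⟨hy, ?_⟩, hyx⟩
          have : y + (b - b') = z := by omega
          rw [this]; exact hz
        refine (card_le_card this).trans (card_image_le.trans (overlap hq hq2 (by omega) (by omega)))
    have hun := card_union_add_card_inter V U
    rw [hVc] at hun
    have e1 : T.card * (T.card - 1) + 2 * T.card = (T.card + 1) * T.card := by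
      rcases Nat.eq_zero_or_pos T.card with h0 | h0
      · rw [h0]; 
      · obtain ⟨m, hm⟩ := Nat.exists_eq_add_of_lt h0
        rw [hm]; simp; ring
    have e2 : (T.card + 1) * (T.card + 1 - 1) * (s * s) = T.card * (T.card - 1) * (s * s) + T.card * (2 * (s * s)) := by
      rw [Nat.add_sub_cancel, ← e1]; ring
    rw [e2]
    nlinarith

/-- the primes -/
lemma ex_prime (j : ℕ) : ∃ q : ℕ, q.Prime ∧ 2 * 4 ^ j < q ∧ q ≤ 4 * 4 ^ j := by
  obtain ⟨p, hp, h1, h2⟩ := Nat.exists_prime_lt_and_le_two_mul (2 * 4 ^ j) (by positivity)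
  exact ⟨p, hp, h1, by omega⟩

noncomputable def qq (j : ℕ) : ℕ := (ex_prime j).choose
lemma qq_prime (j : ℕ) : (qq j).Prime := (ex_prime j).choose_spec.1
lemma qq_gt (j : ℕ) : 2 * 4 ^ j < qq j := (ex_prime j).choose_spec.2.1
lemma qq_le (j : ℕ) : qq j ≤ 4 * 4 ^ j := (ex_prime j).choose_spec.2.2

/-- The counting function: number of elements of `A` in `[1, n]`. -/
noncomputable def count (A : Set ℕ) (n : ℕ) : ℕ := Nat.card {a : ℕ // a ∈ A ∧ 1 ≤ a ∧ a ≤ n}

/-- Schnirelmann density: the infimum of `A(n) / n` over `n ≥ 1`. -/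
noncomputable def sigma (A : Set ℕ) : ℝ := ⨅ n : {n : ℕ // 1 ≤ n}, (count A n : ℝ) / ((n : ℕ) : ℝ)

lemma count_le_of_subset {A : Set ℕ} {n : ℕ} {S : Finset ℕ} (h : ∀ a ∈ A, 1 ≤ a → a ≤ n → a ∈ S) :
    count A n ≤ S.card := by
  unfold count
  have : Nat.card {a : ℕ // a ∈ A ∧ 1 ≤ a ∧ a ≤ n} ≤ Nat.card (S : Set ℕ) :=
    Nat.card_mono (S.finite_toSet) (by rintro x ⟨h1, h2, h3⟩; exact h x h1 h2 h3)
  simpa using this

lemma le_count_of_subset {A : Set ℕ} {n : ℕ} {S : Finset ℕ} (h : ∀ a ∈ S, a ∈ A ∧ 1 ≤ a ∧ a ≤ n) :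
    S.card ≤ count A n := by
  unfold count
  have hfin : Set.Finite {a : ℕ | a ∈ A ∧ 1 ≤ a ∧ a ≤ n} :=
    (Set.finite_Icc 1 n).subset (fun x hx => ⟨hx.2.1, hx.2.2⟩)
  have : Nat.card (S : Set ℕ) ≤ Nat.card {a : ℕ | a ∈ A ∧ 1 ≤ a ∧ a ≤ n} :=
    Nat.card_mono hfin (fun x hx => h x hx)
  have h2 : Nat.card (S : Set ℕ) = S.card := by simp
  rw [h2] at this
  exact this

def AA : Set ℕ := {x | x = 0 ∨ ∃ j, x ∈ blk (qq j) (2 ^ j)}

lemma AA_card (n J : ℕ) (hn : n ≤ 16 ^ J) : count AA n ≤ 4 * 8 ^ J := by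
  classical
  have h1 : count AA n ≤ ((range J).biUnion (fun j => blk (qq j) (2 ^ j))).card := by
    refine count_le_of_subset ?_
    intro x hx hx1 hxn
    rcases hx with hx | ⟨j, hx⟩
    · omega
    · rw [mem_biUnion]
      refine ⟨j, ?_, hx⟩
      rw [mem_range]
      by_contra hj
      push Not at hj
      have h1 := (blk_lt hx).1
      have h2 := qq_gt j
      have h3 : (16:ℕ) ^ J ≤ 16 ^ j := Nat.pow_le_pow_right (by norm_num) hj
      have h4 : (16:ℕ) ^ j = 4 ^ j * 4 ^ j := by rw [← mul_pow]; norm_num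
      have h5 : 0 < 4 ^ j := by positivity
      nlinarith
  refine h1.trans (card_biUnion_le.trans ?_)
  have h2 : ∀ j ∈ range J, (blk (qq j) (2 ^ j)).card ≤ 4 * 8 ^ j := by
    intro j _
    refine (blk_card_le _ _).trans ?_
    have h8 : (8:ℕ) ^ j = 4 ^ j * 2 ^ j := by rw [← mul_pow]; norm_num
    rw [h8, ← mul_assoc]
    exact Nat.mul_le_mul_right _ (qq_le j)
  refine (sum_le_sum h2).trans ?_
  rw [← mul_sum]
  refine Nat.mul_le_mul_left _ ?_
  clear h2 h1 hn
  induction J with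
  | zero => simp
  | succ J ih => rw [sum_range_succ, pow_succ]; omega

lemma AA_density : Tendsto (fun n : ℕ => (count AA n : ℝ) / (n : ℝ)) atTop (𝓝 0) := by
  have hlim : Tendsto (fun n : ℕ => 64 * (1 / 2 : ℝ) ^ (Nat.clog 16 n)) atTop (𝓝 0) := by
    have h1 : Tendsto (fun n : ℕ => Nat.clog 16 n) atTop atTop := by
      refine tendsto_atTop.2 (fun b => ?_)
      filter_upwards [eventually_ge_atTop (16 ^ b)] with n hn
      exact (Nat.pow_le_pow_iff_right (by norm_num : 1 < 16)).1 (hn.trans (Nat.le_pow_clog (by norm_num) n))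
    have h2 := (tendsto_pow_atTop_nhds_zero_of_lt_one (by norm_num : (0:ℝ) ≤ 1/2) (by norm_num : (1/2:ℝ) < 1)).comp h1
    simpa using h2.const_mul (64:ℝ)
  refine squeeze_zero' (Eventually.of_forall (fun n => by positivity)) ?_ hlim
  filter_upwards [eventually_ge_atTop 2] with n hn
  set J := Nat.clog 16 n with hJ
  have h1 : n ≤ 16 ^ J := Nat.le_pow_clog (by norm_num) n
  have h2 : 16 ^ J < 16 * n := by
    have hJ1 : 0 < J := Nat.clog_pos (by norm_num) hn
    have := Nat.pow_pred_clog_lt_self (b := 16) (by norm_num) hn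
    rw [← hJ] at this
    obtain ⟨m, hm⟩ := Nat.exists_eq_add_of_lt hJ1
    rw [hm] at this ⊢
    rw [pow_succ]
    have e : (0 + m + 1).pred = 0 + m := rfl
    rw [e] at this
    omega
  have h3 := AA_card n J h1
  have hn0 : (0:ℝ) < n := by positivity
  rw [div_le_iff₀ hn0]
  have h3' : (count AA n : ℝ) ≤ 4 * 8 ^ J := by exact_mod_cast h3
  have h2' : (16:ℝ) ^ J ≤ 16 * n := by exact_mod_cast h2.le
  have h4 : (16:ℝ) ^ J = 8 ^ J * 2 ^ J := by rw [← mul_pow]; norm_num
  refine h3'.trans ?_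
  rw [one_div, inv_pow]
  have h5 : (0:ℝ) < 2 ^ J := by positivity
  have h6 : (8:ℝ) ^ J = 16 ^ J / 2 ^ J := by rw [h4]; field_simp
  rw [h6]
  rw [div_eq_mul_inv]
  have h7 : (0:ℝ) < (2 ^ J)⁻¹ := by positivity
  nlinarith

lemma basis_count {B : Set ℕ} (hB : ∀ n : ℕ, ∃ x ∈ B, ∃ y ∈ B, x + y = n) (j : ℕ) :
    ∃ T : Finset ℕ, T ⊆ range (qq j) ∧ (∀ b ∈ T, b ∈ B) ∧ T.card = 2 ^ j := by
  classical
  set T0 := (range (qq j)).filter (fun b => b ∈ B) with hT0
  have h1 : (range (qq j)) ⊆ (T0 ×ˢ T0).image (fun z => z.1 + z.2) := by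
    intro n hn
    obtain ⟨x, hx, y, hy, hxy⟩ := hB n
    rw [mem_range] at hn
    rw [mem_image]
    refine ⟨(x, y), ?_, hxy⟩
    rw [mem_product]
    constructor
    · exact mem_filter.2 ⟨mem_range.2 (by omega), hx⟩
    · exact mem_filter.2 ⟨mem_range.2 (by omega), hy⟩
  have h2 := (card_le_card h1).trans card_image_le
  rw [card_range, card_product] at h2
  have h3 : 2 ^ j ≤ T0.card := by
    by_contra hlt
    push Not at hlt
    have h4 := qq_gt j
    have h5 : (4:ℕ) ^ j = 2 ^ j * 2 ^ j := by rw [← mul_pow]; norm_num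
    nlinarith
  obtain ⟨T, hT, hTc⟩ := exists_subset_card_eq h3
  refine ⟨T, fun b hb => (mem_filter.1 (hT hb)).1, fun b hb => (mem_filter.1 (hT hb)).2, hTc⟩

lemma sum_count {B : Set ℕ} (hB : ∀ n : ℕ, ∃ x ∈ B, ∃ y ∈ B, x + y = n) (j n : ℕ) (hn : 48 * 16 ^ j ≤ n) :
    16 ^ j ≤ count (AA + B) n := by
  classical
  obtain ⟨T, hT, hTB, hTc⟩ := basis_count hB j
  have hq := qq_prime j
  have h1 := qq_gt j
  have h2 := qq_le j
  have h3 : (4:ℕ) ^ j = 2 ^ j * 2 ^ j := by rw [← mul_pow]; norm_num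
  have h0 : 0 < 2 ^ j := by positivity
  have h16 : (16:ℕ) ^ j = 4 ^ j * 4 ^ j := by rw [← mul_pow]; norm_num
  have h4p : 0 < 4 ^ j := by positivity
  have hs : 2 ^ j ≤ qq j := by nlinarith
  have hb := bonf hq (by omega) hs T hT
  rw [hTc] at hb
  have hU : (T.biUnion (fun b => (blk (qq j) (2 ^ j)).image (fun y => y + b))).card ≤ count (AA + B) n := by
    refine le_count_of_subset ?_
    intro x hx
    rw [mem_biUnion] at hx
    obtain ⟨b, hb1, hx⟩ := hx
    rw [mem_image] at hx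
    obtain ⟨y, hy, rfl⟩ := hx
    have hy1 := blk_lt hy
    have hbq := mem_range.1 (hT hb1)
    refine ⟨Set.add_mem_add (Or.inr ⟨j, hy⟩) (hTB b hb1), ?_, ?_⟩
    · nlinarith
    · have : y + b ≤ 3 * (qq j * qq j) := by nlinarith
      have : qq j * qq j ≤ 16 * 16 ^ j := by
        rw [h16]; nlinarith
      omega
  refine le_trans ?_ hU
  set U := (T.biUnion (fun b => (blk (qq j) (2 ^ j)).image (fun y => y + b))).card
  have h5 : 2 ^ j * (2 ^ j - 1) * (2 ^ j * 2 ^ j) ≤ 4 ^ j * 4 ^ j := by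
    rw [h3]
    refine Nat.mul_le_mul_right _ (Nat.mul_le_mul_left _ (Nat.sub_le _ _))
  have h6 : 2 * (4 ^ j * 4 ^ j) ≤ 2 ^ j * (qq j * 2 ^ j) := by
    have : 2 ^ j * (qq j * 2 ^ j) = qq j * 4 ^ j := by rw [h3]; ring
    rw [this]
    nlinarith
  rw [h16]
  omega

theorem result : ∃ A : Set ℕ, 0 ∈ A ∧ A ≠ ({0, 1} ∪ {p | Nat.Prime p}) ∧
    Tendsto (fun n : ℕ => (count A n : ℝ) / (n : ℝ)) atTop (𝓝 0) ∧
    ∀ B : Set ℕ, 0 ∈ B → B + B = Set.univ → 0 < sigma (A + B) := by
  refine ⟨AA, Or.inl rfl, ?_, AA_density, ?_⟩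
  · intro h
    have h2 : (2:ℕ) ∈ AA := by
      rw [h]; right; exact Nat.prime_two
    rcases h2 with h2 | ⟨j, h2⟩
    · omega
    · have h3 := (blk_lt h2).1
      have h4 := qq_gt j
      have h5 : 1 ≤ 4 ^ j := Nat.one_le_pow _ _ (by norm_num)
      nlinarith
  · intro B h0 hBB
    have hB : ∀ n : ℕ, ∃ x ∈ B, ∃ y ∈ B, x + y = n := by
      intro n
      have : n ∈ B + B := by rw [hBB]; trivial
      exact Set.mem_add.1 this
    have h1B : 1 ∈ B := by
      obtain ⟨x, hx, y, hy, hxy⟩ := hB 1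
      have : x = 1 ∨ y = 1 := by omega
      rcases this with h | h
      · exact h ▸ hx
      · exact h ▸ hy
    have key : ∀ n : {n : ℕ // 1 ≤ n}, (1 / 768 : ℝ) ≤ (count (AA + B) n : ℝ) / ((n : ℕ) : ℝ) := by
      rintro ⟨n, hn⟩
      have hn0 : (0:ℝ) < n := by exact_mod_cast (by omega : 0 < n)
      simp only
      rw [le_div_iff₀ hn0]
      rcases Nat.lt_or_ge n 48 with h48 | h48
      · have : 1 ≤ count (AA + B) n := by
          have := le_count_of_subset (A := AA + B) (n := n) (S := {1}) (by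
            intro a ha
            rw [mem_singleton] at ha
            subst ha
            exact ⟨Set.mem_add.2 ⟨0, Or.inl rfl, 1, h1B, by norm_num⟩, le_refl _, hn⟩)
          simpa using this
        have h1 : (1:ℝ) ≤ count (AA + B) n := by exact_mod_cast this
        have h2 : (n:ℝ) < 48 := by exact_mod_cast h48
        nlinarith
      · -- choose j
        set j := Nat.log 16 (n / 48) with hj
        have h1 : 16 ^ j ≤ n / 48 := Nat.pow_log_le_self 16 (by omega)
        have h2 : n / 48 < 16 ^ (j + 1) := Nat.lt_pow_succ_log_self (by norm_num) _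
        have h3 : 48 * 16 ^ j ≤ n := by omega
        have h4 : n < 48 * 16 ^ (j + 1) := by omega
        have h5 := sum_count hB j n h3
        have h5' : (16:ℝ) ^ j ≤ count (AA + B) n := by exact_mod_cast h5
        have h4' : (n:ℝ) < 48 * 16 ^ (j + 1) := by exact_mod_cast h4
        rw [pow_succ] at h4'
        linarith
    have : (1 / 768 : ℝ) ≤ sigma (AA + B) := by
      unfold sigma
      have : Nonempty {n : ℕ // 1 ≤ n} := ⟨⟨1, le_refl _⟩⟩
      exact le_ciInf key
    linarith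

end Pool.Agent.Results.MP_b92640_nt.Stohr
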